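import Mathlib

set_option autoImplicit false

namespace Pool.Agent.Results.MP_04b39a_gt.Quartic

open Set Function Polynomial

/-- The `p`-norm on three-dimensional real space. -/
noncomputable def nrm (p : ℝ) (x : Fin 3 → ℝ) : ℝ := (|x 0| ^ p + |x 1| ^ p + |x 2| ^ p) ^ (1 / p)

theorem bd {x y : ℝ} (k : ℝ) (h : 3 ≤ k) (a : 0 ≤ x) (b : x ≤ y) :
    0 ≤ (x + k)⁻¹ - (y + k)⁻¹ ∧ (x + k)⁻¹ - (y + k)⁻¹ ≤ (y - x) / 9 := by
  have p : 0 < x + k := by linarith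
  have q : 0 < y + k := by linarith
  rw [inv_sub_inv p.ne' q.ne', show y + k - (x + k) = y - x by ring]
  exact ⟨div_nonneg (by linarith) (by positivity),
    div_le_div_of_nonneg_left (by linarith) (by norm_num) (by nlinarith)⟩

theorem result : ∃ (M M' : Set (Fin 3 → ℝ)) (φ : M ≃ M'), M.Infinite ∧ (∀ x ∈ M, x 2 = 0) ∧
    (∀ x y : M, nrm 3 ((φ x).1 - (φ y).1) = nrm 3 (x.1 - y.1)) ∧
    ∀ P : AffineSubspace ℝ (Fin 3 → ℝ), Module.finrank ℝ P.direction = 2 →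
      (M' ∩ P).Finite ∧ ¬ M' ⊆ P := by
  obtain ⟨k, k0, k3⟩ : ∃ k : ℝ, 0 < k ∧ k ^ 3 = 2 :=
    ⟨2 ^ ((3 : ℕ) : ℝ)⁻¹, by positivity, Real.rpow_inv_natCast_pow (by norm_num) (by norm_num)⟩
  let f : ℕ → Fin 3 → ℝ := fun n => ![n - 2 * (n + 3 : ℝ)⁻¹ + (n + 4 : ℝ)⁻¹ - 2 * (n + 5 : ℝ)⁻¹,
    k * (n + 2 * (n + 3 : ℝ)⁻¹ - (n + 4 : ℝ)⁻¹ + 2 * (n + 5 : ℝ)⁻¹), 0]
  let g : ℕ → Fin 3 → ℝ := fun n => ![n - 2 * (n + 3 : ℝ)⁻¹ - (n + 4 : ℝ)⁻¹ + 2 * (n + 5 : ℝ)⁻¹,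
    n + 2 * (n + 3 : ℝ)⁻¹ + (n + 4 : ℝ)⁻¹ + 2 * (n + 5 : ℝ)⁻¹, n + 2 * (n + 3 : ℝ)⁻¹ - (n + 4 : ℝ)⁻¹ - 2 * (n + 5 : ℝ)⁻¹]
  have mo : ∀ {m n : ℕ}, m < n → f m 0 < f n 0 ∧ g m 0 < g n 0 := fun {m n} h => by
    have l : (m : ℝ) < n := by exact_mod_cast h
    have a := bd 3 le_rfl m.cast_nonneg l.le
    have b := bd 4 (by norm_num) m.cast_nonneg l.le
    have c := bd 5 (by norm_num) m.cast_nonneg l.le
    simp only [f, g, Matrix.cons_val_zero]
    constructor <;> linarith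
  have hf : Injective f := fun m n h => (strictMono_nat_of_lt_succ (f := fun n => f n 0)
    fun n => (mo n.lt_succ_self).1).injective (congrFun h 0)
  have hg : Injective g := fun m n h => (strictMono_nat_of_lt_succ (f := fun n => g n 0)
    fun n => (mo n.lt_succ_self).2).injective (congrFun h 0)
  have id : ∀ m n, nrm 3 (g n - g m) = nrm 3 (f n - f m) := fun m n => by
    wlog h : m ≤ n generalizing m n
    · have := this n m (not_le.1 h).le
      rw [← neg_sub (g m), ← neg_sub (f m)]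
      simpa only [nrm, Pi.neg_apply, abs_neg] using this
    have l : (m : ℝ) ≤ n := by exact_mod_cast h
    have a := bd 3 le_rfl m.cast_nonneg l
    have b := bd 4 (by norm_num) m.cast_nonneg l
    have c := bd 5 (by norm_num) m.cast_nonneg l
    have e : ((n : ℝ) - m) * (4 * ((m + 3 : ℝ)⁻¹ - (n + 3 : ℝ)⁻¹) * ((m + 5 : ℝ)⁻¹ - (n + 5 : ℝ)⁻¹) -
        2 * ((m + 4 : ℝ)⁻¹ - (n + 4 : ℝ)⁻¹) * ((m + 3 : ℝ)⁻¹ - (n + 3 : ℝ)⁻¹ + ((m + 5 : ℝ)⁻¹ - (n + 5 : ℝ)⁻¹))) +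
        4 * ((m + 3 : ℝ)⁻¹ - (n + 3 : ℝ)⁻¹) * ((m + 4 : ℝ)⁻¹ - (n + 4 : ℝ)⁻¹) * ((m + 5 : ℝ)⁻¹ - (n + 5 : ℝ)⁻¹) = 0 := by
      field_simp
      ring
    unfold nrm
    congr 1
    simp only [f, g, Pi.sub_apply, Matrix.cons_val_zero, Matrix.cons_val_one, Matrix.cons_val,
      Real.rpow_ofNat, ← mul_sub k, abs_mul, mul_pow, abs_of_pos k0, k3, sub_self, abs_zero]
    rw [abs_of_nonneg, abs_of_nonneg, abs_of_nonneg, abs_of_nonneg, abs_of_nonneg]
    · linear_combination (-24) * e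
    all_goals linarith
  refine ⟨range f, range g, (Equiv.ofInjective f hf).symm.trans (Equiv.ofInjective g hg),
    infinite_range_of_injective hf, by rintro _ ⟨n, rfl⟩; rfl, ?_, fun P h => ?_⟩
  · rintro ⟨_, n, rfl⟩ ⟨_, m, rfl⟩
    simpa using id m n
  suffices a : (range g ∩ P).Finite from
    ⟨a, fun b => infinite_range_of_injective hg (inter_eq_left.2 b ▸ a)⟩
  obtain ⟨l, l0, hl⟩ := P.direction.exists_le_ker_of_lt_top (lt_top_iff_ne_top.2 fun e => by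
    rw [e] at h
    simp at h)
  by_contra a
  have b : {n | g n ∈ P}.Infinite := fun b => a ((b.image g).subset fun _ ⟨⟨n, c⟩, d⟩ =>
    ⟨n, by rwa [mem_setOf, c], c⟩)
  obtain ⟨n₀, c⟩ := b.nonempty
  have v : ∀ x, l x = x 0 * l ![1, 0, 0] + x 1 * l ![0, 1, 0] + x 2 * l ![0, 0, 1] := fun x => by
    simp only [← smul_eq_mul, ← map_smul, ← map_add]
    congr 1
    ext i
    fin_cases i <;> simp
  generalize l ![1, 0, 0] = α at v
  generalize l ![0, 1, 0] = β at v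
  generalize l ![0, 0, 1] = γ at v
  have := Polynomial.eq_zero_of_infinite_isRoot
    ((C (α + β + γ) * X - C (l (g n₀))) * (X + 3) * (X + 4) * (X + 5) +
      2 * C (-α + β + γ) * (X + 4) * (X + 5) - C (α - β + γ) * (X + 3) * (X + 5) +
      2 * C (α + β - γ) * (X + 3) * (X + 4))
    ((b.image Nat.cast_injective.injOn).mono (by
      rintro _ ⟨n, d, rfl⟩
      have e : l (g n - g n₀) = 0 := hl (P.vsub_mem_direction d c)
      rw [map_sub, sub_eq_zero, v (g n)] at e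
      simp only [mem_setOf, IsRoot, eval_add, eval_sub, eval_mul, eval_C, eval_X, eval_ofNat, ← e,
        g, Matrix.cons_val_zero, Matrix.cons_val_one, Matrix.cons_val]
      field_simp
      ring))
  have p := congrArg (Polynomial.eval (-3)) this
  have q := congrArg (Polynomial.eval (-4)) this
  have r := congrArg (Polynomial.eval (-5)) this
  simp only [eval_add, eval_sub, eval_mul, eval_C, eval_X, eval_ofNat, eval_zero] at p q r
  exact l0 (LinearMap.ext fun x => by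
    rw [v, show α = 0 by linarith, show β = 0 by linarith, show γ = 0 by linarith]
    simp)

end Pool.Agent.Results.MP_04b39a_gt.Quartic
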